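import Pool.Agent.Helper77.SP.Moment

open Finset
open scoped Pointwise

namespace Pool.Agent.Helper77.SP

/-- divisor bound with the large prime factors counted by `bo` -/
lemma card_divisors_le {y m M : ℕ} (hm : m ≠ 0) (hM : m ≤ M) :
    m.divisors.card ≤ (Nat.log 2 M + 1) ^ y * 2 ^ bo y m := by
  have hM0 : M ≠ 0 := by omega
  have hbo : bo y m = ∑ p ∈ m.primeFactors, if y < p then m.factorization p else 0 := by
    unfold bo
    rw [Finsupp.sum, Nat.support_factorization]
  rw [Nat.card_divisors hm, hbo, ← prod_pow_eq_pow_sum]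
  have h1 : ∏ p ∈ m.primeFactors, (m.factorization p + 1) ≤
      ∏ p ∈ m.primeFactors, ((if y < p then 1 else (Nat.log 2 M + 1)) *
        2 ^ (if y < p then m.factorization p else 0)) := by
    apply prod_le_prod (fun _ _ => Nat.zero_le _)
    intro p hp
    have hpp := Nat.prime_of_mem_primeFactors hp
    split_ifs with h
    · rw [one_mul]
      exact Nat.lt_two_pow_self
    · rw [pow_zero, mul_one]
      apply Nat.succ_le_succ
      apply Nat.le_log_of_pow_le (by norm_num)
      calc 2 ^ m.factorization p ≤ p ^ m.factorization p :=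
            Nat.pow_le_pow_left hpp.two_le _
        _ ≤ m := Nat.ordProj_le p hm
        _ ≤ M := hM
  refine h1.trans ?_
  rw [prod_mul_distrib]
  apply Nat.mul_le_mul_right
  calc ∏ p ∈ m.primeFactors, (if y < p then 1 else (Nat.log 2 M + 1))
      = ∏ p ∈ m.primeFactors.filter (fun p => ¬ y < p), (Nat.log 2 M + 1) := by
        rw [prod_filter]
        apply prod_congr rfl
        intro p _
        by_cases h : y < p <;> simp [h]
    _ = (Nat.log 2 M + 1) ^ (m.primeFactors.filter (fun p => ¬ y < p)).card := by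
        rw [prod_const]
    _ ≤ _ := by
        apply Nat.pow_le_pow_right (Nat.succ_pos _)
        calc (m.primeFactors.filter (fun p => ¬ y < p)).card ≤ (Icc 1 y).card := by
              apply card_le_card
              intro p hp
              rw [mem_filter] at hp
              rw [mem_Icc]
              exact ⟨(Nat.prime_of_mem_primeFactors hp.1).one_le, by omega⟩
          _ = y := by simp

/-- the number of representations of a nonzero integer as a product -/
lemma card_rep_le (A B : Finset ℤ) {n : ℤ} (hn : n ≠ 0) :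
    ((A ×ˢ B).filter fun x => x.1 * x.2 = n).card ≤ 2 * n.natAbs.divisors.card := by
  classical
  have h1 : ((A ×ˢ B).filter fun x => x.1 * x.2 = n).card ≤
      ((n.natAbs.divisors.image fun d : ℕ => (d : ℤ)) ∪
        (n.natAbs.divisors.image fun d : ℕ => -(d : ℤ))).card := by
    apply card_le_card_of_injOn (fun x : ℤ × ℤ => x.1)
    · intro x hx
      have hx' := (mem_filter.1 (mem_coe.1 hx)).2
      have hdvd : x.1.natAbs ∣ n.natAbs := by
        rw [← hx', Int.natAbs_mul]; exact dvd_mul_right _ _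
      have hmem : x.1.natAbs ∈ n.natAbs.divisors :=
        Nat.mem_divisors.2 ⟨hdvd, by simpa using hn⟩
      rw [mem_coe, mem_union, mem_image, mem_image]
      rcases Int.natAbs_eq x.1 with h | h
      · left; exact ⟨_, hmem, h.symm⟩
      · right; exact ⟨_, hmem, h.symm⟩
    · intro x hx x' hx' h
      have e1 := (mem_filter.1 (mem_coe.1 hx)).2
      have e2 := (mem_filter.1 (mem_coe.1 hx')).2
      have h' : x.1 = x'.1 := h
      have h0 : x.1 ≠ 0 := by
        intro h0; rw [h0, zero_mul] at e1; exact hn e1.symm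
      have : x.1 * x.2 = x.1 * x'.2 := by rw [e1, h', e2]
      exact Prod.ext h' (mul_left_cancel₀ h0 this)
  refine h1.trans ((card_union_le _ _).trans ?_)
  have h2 := card_image_le (s := n.natAbs.divisors) (f := fun d : ℕ => (d : ℤ))
  have h3 := card_image_le (s := n.natAbs.divisors) (f := fun d : ℕ => -(d : ℤ))
  omega

/-- the product of the weighted sizes is at most the number of products, up to the small primes -/
lemma weighted (A B : Finset ℤ) (N y : ℕ) (hA : ∀ a ∈ A, a ≠ 0 ∧ |a| ≤ N)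
    (hB : ∀ b ∈ B, b ≠ 0 ∧ |b| ≤ N) :
    (∑ a ∈ A, ((1 : ℝ) / 2) ^ bo y a.natAbs) * (∑ b ∈ B, ((1 : ℝ) / 2) ^ bo y b.natAbs) ≤
      2 * ((Nat.log 2 (N ^ 2) + 1 : ℕ) : ℝ) ^ y * ((A * B).card : ℝ) := by
  classical
  have hN : ∀ a ∈ A, a.natAbs ≤ N := by
    intro a ha
    have := (hA a ha).2
    rw [Int.abs_eq_natAbs] at this
    exact_mod_cast this
  have hN' : ∀ b ∈ B, b.natAbs ≤ N := by
    intro a ha
    have := (hB a ha).2
    rw [Int.abs_eq_natAbs] at this
    exact_mod_cast this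
  rw [sum_mul_sum, ← sum_product']
  have h1 : ∑ x ∈ A ×ˢ B, ((1 : ℝ) / 2) ^ bo y x.1.natAbs * ((1 : ℝ) / 2) ^ bo y x.2.natAbs =
      ∑ x ∈ A ×ˢ B, ((1 : ℝ) / 2) ^ bo y (x.1 * x.2).natAbs := by
    apply sum_congr rfl
    intro x hx
    rw [mem_product] at hx
    rw [Int.natAbs_mul, bo_mul (by simpa using (hA _ hx.1).1) (by simpa using (hB _ hx.2).1),
      pow_add]
  rw [h1, ← sum_fiberwise_of_maps_to (s := A ×ˢ B) (t := A * B) (g := fun x => x.1 * x.2)
    (fun x hx => mul_mem_mul (mem_product.1 hx).1 (mem_product.1 hx).2)]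
  have h2 : ∀ n ∈ A * B, ∑ x ∈ A ×ˢ B with x.1 * x.2 = n, ((1 : ℝ) / 2) ^ bo y (x.1 * x.2).natAbs ≤
      2 * ((Nat.log 2 (N ^ 2) + 1 : ℕ) : ℝ) ^ y := by
    intro n hn
    obtain ⟨a, ha, b, hb, rfl⟩ := mem_mul.1 hn
    have hn0 : a * b ≠ 0 := mul_ne_zero (hA a ha).1 (hB b hb).1
    have h3 : ∑ x ∈ A ×ˢ B with x.1 * x.2 = a * b, ((1 : ℝ) / 2) ^ bo y (x.1 * x.2).natAbs =
        (((A ×ˢ B).filter fun x => x.1 * x.2 = a * b).card : ℝ) *
          ((1 : ℝ) / 2) ^ bo y (a * b).natAbs := by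
      rw [← nsmul_eq_mul, ← sum_const]
      apply sum_congr rfl
      intro x hx
      rw [(mem_filter.1 hx).2]
    rw [h3]
    have h4 : (((A ×ˢ B).filter fun x => x.1 * x.2 = a * b).card : ℝ) ≤
        2 * (((Nat.log 2 (N ^ 2) + 1 : ℕ) : ℝ) ^ y * 2 ^ bo y (a * b).natAbs) := by
      have h5 := card_rep_le A B hn0
      have h6 : (a * b).natAbs ≤ N ^ 2 := by
        rw [Int.natAbs_mul, pow_two]
        exact Nat.mul_le_mul (hN a ha) (hN' b hb)
      have h7 := card_divisors_le (y := y) (m := (a * b).natAbs) (by simpa using hn0) h6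
      have h8 := h5.trans (Nat.mul_le_mul_left 2 h7)
      exact_mod_cast h8
    have h9 : (0 : ℝ) ≤ ((1 : ℝ) / 2) ^ bo y (a * b).natAbs := by positivity
    calc _ ≤ 2 * (((Nat.log 2 (N ^ 2) + 1 : ℕ) : ℝ) ^ y * 2 ^ bo y (a * b).natAbs) *
          ((1 : ℝ) / 2) ^ bo y (a * b).natAbs := mul_le_mul_of_nonneg_right h4 h9
      _ = 2 * ((Nat.log 2 (N ^ 2) + 1 : ℕ) : ℝ) ^ y *
          ((2 : ℝ) ^ bo y (a * b).natAbs * ((1 : ℝ) / 2) ^ bo y (a * b).natAbs) := by ring
      _ = 2 * ((Nat.log 2 (N ^ 2) + 1 : ℕ) : ℝ) ^ y := by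
          rw [← mul_pow]; norm_num
  calc ∑ n ∈ A * B, ∑ x ∈ A ×ˢ B with x.1 * x.2 = n, ((1 : ℝ) / 2) ^ bo y (x.1 * x.2).natAbs
      ≤ ∑ n ∈ A * B, 2 * ((Nat.log 2 (N ^ 2) + 1 : ℕ) : ℝ) ^ y := sum_le_sum h2
    _ = _ := by rw [sum_const, nsmul_eq_mul]; ring

/-- Jensen's inequality for the exponential function -/
lemma jensen_exp {ι : Type*} (A : Finset ι) (hA : A.Nonempty) (f : ι → ℝ) :
    (A.card : ℝ) * Real.exp ((∑ a ∈ A, f a) / A.card) ≤ ∑ a ∈ A, Real.exp (f a) := by
  have hc : (0 : ℝ) < A.card := by exact_mod_cast hA.card_pos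
  have h := convexOn_exp.map_sum_le (t := A) (w := fun _ => (A.card : ℝ)⁻¹) (p := f)
    (fun _ _ => by positivity) (by rw [sum_const, nsmul_eq_mul]; field_simp)
    (fun _ _ => Set.mem_univ _)
  simp only [smul_eq_mul] at h
  rw [← mul_sum, ← mul_sum] at h
  rw [div_eq_inv_mul]
  calc (A.card : ℝ) * Real.exp ((A.card : ℝ)⁻¹ * ∑ a ∈ A, f a)
      ≤ (A.card : ℝ) * ((A.card : ℝ)⁻¹ * ∑ a ∈ A, Real.exp (f a)) :=
        mul_le_mul_of_nonneg_left h hc.le
    _ = _ := by field_simp

lemma sum_natAbs_le (A : Finset ℤ) (N : ℕ) (hA : ∀ a ∈ A, a ≠ 0 ∧ |a| ≤ N) (g : ℕ → ℝ)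
    (hg : ∀ n, 0 ≤ g n) : ∑ a ∈ A, g a.natAbs ≤ 2 * ∑ m ∈ Icc 1 N, g m := by
  classical
  have hN : ∀ a ∈ A, a.natAbs ≤ N := by
    intro a ha
    have := (hA a ha).2
    rw [Int.abs_eq_natAbs] at this
    exact_mod_cast this
  have key : ∀ T : Finset ℤ, T ⊆ A → (∀ a ∈ T, ∀ b ∈ T, a.natAbs = b.natAbs → a = b) →
      ∑ a ∈ T, g a.natAbs ≤ ∑ m ∈ Icc 1 N, g m := by
    intro T hT hinj
    rw [← sum_image (f := g) (g := Int.natAbs) (s := T) (fun a ha b hb h => hinj a ha b hb h)]
    apply sum_le_sum_of_subset_of_nonneg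
    · intro m hm
      obtain ⟨a, ha, rfl⟩ := mem_image.1 hm
      rw [mem_Icc]
      have := (hA a (hT ha)).1
      exact ⟨by omega, hN a (hT ha)⟩
    · intro i _ _; exact hg i
  rw [← sum_filter_add_sum_filter_not A (fun a => 0 < a)]
  have h1 := key (A.filter fun a => 0 < a) (filter_subset _ _) (by
    intro a ha b hb h
    have := (mem_filter.1 ha).2
    have := (mem_filter.1 hb).2
    omega)
  have h2 := key (A.filter fun a => ¬ 0 < a) (filter_subset _ _) (by
    intro a ha b hb h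
    have := (mem_filter.1 ha).2
    have := (mem_filter.1 hb).2
    omega)
  linarith

/-- the bound for the number of elements with many large prime factors, in logarithmic form -/
lemma weight_lower (A : Finset ℤ) (hne : A.Nonempty) (N y : ℕ)
    (hA : ∀ a ∈ A, a ≠ 0 ∧ |a| ≤ N) {w s : ℝ} (hw : 1 < w) (hs : 1 < s) (hy : 2 * w ≤ y) :
    (A.card : ℝ) * Real.exp (-(Real.log 2 / Real.log w *
      (Real.log 2 + s * Real.log N + 2 * w * (∑' n : ℕ, ((n : ℝ) ^ s)⁻¹) - Real.log A.card))) ≤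
      ∑ a ∈ A, ((1 : ℝ) / 2) ^ bo y a.natAbs := by
  have hc : (0 : ℝ) < A.card := by exact_mod_cast hne.card_pos
  have hw0 : (0 : ℝ) < w := by linarith
  have hlw : 0 < Real.log w := Real.log_pos hw
  have hN : (1 : ℝ) ≤ N := by
    obtain ⟨a, ha⟩ := hne
    have h1 := (hA a ha).2
    have h2 : 1 ≤ |a| := Int.one_le_abs (hA a ha).1
    exact_mod_cast h2.trans h1
  set Z : ℝ := ∑' n : ℕ, ((n : ℝ) ^ s)⁻¹ with hZ
  set M : ℝ := ∑ a ∈ A, (bo y a.natAbs : ℝ) with hM
  -- the mean of the number of large prime factors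
  have h1 : (A.card : ℝ) * Real.exp (Real.log w * M / A.card) ≤
      2 * ((N : ℝ) ^ s * Real.exp (2 * w * Z)) := by
    have h2 := jensen_exp A hne (fun a => Real.log w * (bo y a.natAbs : ℝ))
    rw [← mul_sum] at h2
    refine h2.trans ?_
    have h3 : ∑ a ∈ A, Real.exp (Real.log w * (bo y a.natAbs : ℝ)) =
        ∑ a ∈ A, w ^ bo y a.natAbs := by
      apply sum_congr rfl
      intro a _
      rw [mul_comm, Real.exp_nat_mul, Real.exp_log hw0]
    rw [h3]
    have h4 := sum_natAbs_le A N hA (fun n => w ^ bo y n) (fun n => by positivity)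
    refine h4.trans ?_
    have h5 := moment hw.le hs hy N
    linarith
  have h2 : Real.log w * (M / A.card) ≤
      Real.log 2 + s * Real.log N + 2 * w * Z - Real.log A.card := by
    have h3 := Real.log_le_log (by positivity) h1
    rw [Real.log_mul hc.ne' (Real.exp_ne_zero _), Real.log_exp, Real.log_mul (by norm_num)
      (by positivity), Real.log_mul (by positivity) (Real.exp_ne_zero _), Real.log_exp,
      Real.log_rpow (by linarith)] at h3
    have : Real.log w * (M / A.card) = Real.log w * M / A.card := by ring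
    linarith
  have h3 : (A.card : ℝ) * Real.exp (-(Real.log 2 * (M / A.card))) ≤
      ∑ a ∈ A, ((1 : ℝ) / 2) ^ bo y a.natAbs := by
    have h4 := jensen_exp A hne (fun a => -(Real.log 2) * (bo y a.natAbs : ℝ))
    rw [← mul_sum] at h4
    have h5 : ∑ a ∈ A, Real.exp (-(Real.log 2) * (bo y a.natAbs : ℝ)) =
        ∑ a ∈ A, ((1 : ℝ) / 2) ^ bo y a.natAbs := by
      apply sum_congr rfl
      intro a _
      rw [mul_comm, Real.exp_nat_mul, Real.exp_neg, Real.exp_log (by norm_num), one_div]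
    rw [h5] at h4
    have h6 : -(Real.log 2) * M / A.card = -(Real.log 2 * (M / A.card)) := by ring
    rw [h6] at h4
    exact h4
  refine le_trans ?_ h3
  apply mul_le_mul_of_nonneg_left _ hc.le
  apply Real.exp_le_exp.2
  apply neg_le_neg
  have hl2 : 0 < Real.log 2 := Real.log_pos (by norm_num)
  calc Real.log 2 * (M / A.card) = Real.log 2 / Real.log w * (Real.log w * (M / A.card)) := by
        field_simp
    _ ≤ _ := mul_le_mul_of_nonneg_left h2 (by positivity)

/-- **The explicit inequality.** -/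
theorem explicit (A B : Finset ℤ) (hAne : A.Nonempty) (hBne : B.Nonempty) (N y : ℕ)
    (hA : ∀ a ∈ A, a ≠ 0 ∧ |a| ≤ N) (hB : ∀ b ∈ B, b ≠ 0 ∧ |b| ≤ N) {w s : ℝ} (hw : 1 < w)
    (hs : 1 < s) (hy : 2 * w ≤ y) :
    Real.log A.card + Real.log B.card ≤ Real.log (A * B).card + Real.log 2 +
      y * Real.log ((Nat.log 2 (N ^ 2) + 1 : ℕ) : ℝ) +
      Real.log 2 / Real.log w * (2 * Real.log 2 + 2 * s * Real.log N +
        4 * w * (∑' n : ℕ, ((n : ℝ) ^ s)⁻¹) - Real.log A.card - Real.log B.card) := by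
  have hcA : (0 : ℝ) < A.card := by exact_mod_cast hAne.card_pos
  have hcB : (0 : ℝ) < B.card := by exact_mod_cast hBne.card_pos
  have hcAB : (0 : ℝ) < (A * B).card := by exact_mod_cast (hAne.mul hBne).card_pos
  have h1 := weight_lower A hAne N y hA hw hs hy
  have h2 := weight_lower B hBne N y hB hw hs hy
  have h3 := weighted A B N y hA hB
  have h4 := (mul_le_mul h1 h2 (by positivity) (sum_nonneg fun _ _ => by positivity)).trans h3
  have h5 := Real.log_le_log (by positivity) h4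
  have hS : (0 : ℝ) < ((Nat.log 2 (N ^ 2) + 1 : ℕ) : ℝ) := by exact_mod_cast Nat.succ_pos _
  rw [Real.log_mul (by positivity) (by positivity), Real.log_mul hcA.ne' (Real.exp_ne_zero _),
    Real.log_mul hcB.ne' (Real.exp_ne_zero _), Real.log_exp, Real.log_exp,
    Real.log_mul (by positivity) hcAB.ne', Real.log_mul (by norm_num) (by positivity),
    Real.log_pow] at h5
  linarith

end Pool.Agent.Helper77.SP
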