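import Mathlib

open Finset
open scoped Pointwise Nat

namespace Pool.Agent.Helper77.SP

/-- products of `m` distinct elements of `Q` -/
def prods (Q : Finset ℕ) (m : ℕ) : Finset ℤ :=
  (Q.powersetCard m).image fun S => ((∏ p ∈ S, p : ℕ) : ℤ)

lemma card_prods {Q : Finset ℕ} (hQ : ∀ p ∈ Q, p.Prime) (m : ℕ) :
    (prods Q m).card = Q.card.choose m := by
  unfold prods
  rw [card_image_of_injOn, card_powersetCard]
  intro S hS T hT h
  have hS' := (mem_powersetCard.1 (mem_coe.1 hS)).1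
  have hT' := (mem_powersetCard.1 (mem_coe.1 hT)).1
  have h' : (∏ p ∈ S, p) = ∏ p ∈ T, p := by
    simp only at h
    exact_mod_cast h
  rw [← Nat.primeFactors_prod (fun p hp => hQ p (hS' hp)),
    ← Nat.primeFactors_prod (fun p hp => hQ p (hT' hp)), h']

lemma prods_bounds {Q : Finset ℕ} (hQ : ∀ p ∈ Q, p.Prime) (m x : ℕ) (hx : ∀ p ∈ Q, p ≤ x) :
    ∀ a ∈ prods Q m, 1 ≤ a ∧ a ≤ (x : ℤ) ^ m := by
  intro a ha
  obtain ⟨S, hS, rfl⟩ := mem_image.1 ha
  obtain ⟨hS', hc⟩ := mem_powersetCard.1 hS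
  constructor
  · have : 0 < ∏ p ∈ S, p := prod_pos fun p hp => (hQ p (hS' hp)).pos
    exact_mod_cast this
  · have : ∏ p ∈ S, p ≤ x ^ m := by
      rw [← hc]
      exact prod_le_pow_card _ _ _ fun p hp => hx p (hS' hp)
    exact_mod_cast this

lemma card_prods_mul_prods_le (Q : Finset ℕ) (m : ℕ) :
    (prods Q m * prods Q m).card ≤ (Q.card + 2 * m - 1).choose (2 * m) := by
  classical
  rw [← card_finsuppAntidiag_nat_eq_choose]
  refine le_trans (card_le_card ?_) (card_image_le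
    (f := fun f : ℕ →₀ ℕ => ((∏ p ∈ Q, p ^ f p : ℕ) : ℤ)))
  intro n hn
  obtain ⟨a, ha, b, hb, rfl⟩ := mem_mul.1 hn
  obtain ⟨S, hS, rfl⟩ := mem_image.1 ha
  obtain ⟨T, hT, rfl⟩ := mem_image.1 hb
  obtain ⟨hS', hcS⟩ := mem_powersetCard.1 hS
  obtain ⟨hT', hcT⟩ := mem_powersetCard.1 hT
  rw [mem_image]
  refine ⟨Finsupp.onFinset Q (fun p => (if p ∈ S then 1 else 0) + (if p ∈ T then 1 else 0)) ?_,
    ?_, ?_⟩
  · intro p hp
    by_contra h
    have h1 : p ∉ S := fun h' => h (hS' h')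
    have h2 : p ∉ T := fun h' => h (hT' h')
    simp [h1, h2] at hp
  · rw [mem_finsuppAntidiag]
    refine ⟨?_, Finsupp.support_onFinset_subset⟩
    simp only [Finsupp.onFinset_apply]
    rw [sum_add_distrib, sum_ite_mem, sum_ite_mem, inter_eq_right.2 hS', inter_eq_right.2 hT',
      sum_const, sum_const, hcS, hcT]
    simp
    ring
  · simp only [Finsupp.onFinset_apply]
    have key : ∀ U : Finset ℕ, U ⊆ Q → ∏ p ∈ Q, p ^ (if p ∈ U then 1 else 0) = ∏ p ∈ U, p := by
      intro U hU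
      have : ∀ p ∈ Q, p ^ (if p ∈ U then 1 else 0) = if p ∈ U then p else 1 := by
        intro p _
        split_ifs <;> simp
      rw [prod_congr rfl this, prod_ite_mem, inter_eq_right.2 hU]
    have : ∏ p ∈ Q, p ^ ((if p ∈ S then 1 else 0) + (if p ∈ T then 1 else 0)) =
        (∏ p ∈ S, p) * ∏ p ∈ T, p := by
      rw [← key S hS', ← key T hT', ← prod_mul_distrib]
      exact prod_congr rfl fun p _ => pow_add _ _ _
    rw [this]
    push_cast
    ring

/-- comparison of the two binomial coefficients -/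
lemma choose_ineq {P m : ℕ} (hm : 1 ≤ m) (hP : 2 * m ≤ P) :
    ((P + 2 * m - 1).choose (2 * m) : ℝ) ≤
      (P.choose m : ℝ) ^ 2 * (2 * m / 4 ^ m) * Real.exp (12 * m ^ 2 / P) := by
  have hP0 : (0 : ℝ) < P := by exact_mod_cast (by omega : 0 < P)
  have hm0 : (0 : ℝ) < m := by exact_mod_cast (by omega : 0 < m)
  have hPm : (2 : ℝ) * m ≤ P := by exact_mod_cast hP
  have h1 : ((P + 2 * m - 1).choose (2 * m) : ℝ) ≤ ((P + 2 * m - 1 : ℕ) : ℝ) ^ (2 * m) /
      ((2 * m)! : ℕ) := by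
    have := Nat.choose_le_pow_div (α := ℝ) (2 * m) (P + 2 * m - 1)
    exact_mod_cast this
  have h2 : (((P + 1 - m : ℕ) : ℝ) ^ m / (m ! : ℕ)) ≤ (P.choose m : ℝ) := by
    have := Nat.pow_le_choose (α := ℝ) m P
    exact_mod_cast this
  have hQ0 : (0 : ℝ) < ((P + 1 - m : ℕ) : ℝ) := by exact_mod_cast (by omega : 0 < P + 1 - m)
  have hQ : (P : ℝ) / 2 ≤ ((P + 1 - m : ℕ) : ℝ) := by
    rw [Nat.cast_sub (by omega)]
    push_cast
    linarith
  -- ratio of the bases
  have h3 : ((P + 2 * m - 1 : ℕ) : ℝ) ≤ ((P + 1 - m : ℕ) : ℝ) * Real.exp (6 * m / P) := by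
    have h4 : (1 : ℝ) + 6 * m / P ≤ Real.exp (6 * m / P) := by
      have := Real.add_one_le_exp (6 * (m : ℝ) / P)
      linarith
    calc ((P + 2 * m - 1 : ℕ) : ℝ) ≤ ((P + 1 - m : ℕ) : ℝ) * (1 + 6 * m / P) := by
          have h5 : ((P + 2 * m - 1 : ℕ) : ℝ) = ((P + 1 - m : ℕ) : ℝ) + (3 * m - 2) := by
            rw [Nat.cast_sub (by omega), Nat.cast_sub (by omega)]
            push_cast
            ring
          have h6 : (P : ℝ) / 2 * (6 * m / P) = 3 * m := by
            field_simp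
            ring
          have h7 : (P : ℝ) / 2 * (6 * m / P) ≤ ((P + 1 - m : ℕ) : ℝ) * (6 * m / P) :=
            mul_le_mul_of_nonneg_right hQ (by positivity)
          rw [h5, mul_add, mul_one]
          linarith
      _ ≤ _ := mul_le_mul_of_nonneg_left h4 hQ0.le
  have h4 : ((P + 2 * m - 1 : ℕ) : ℝ) ^ (2 * m) ≤ ((P + 1 - m : ℕ) : ℝ) ^ (2 * m) *
      Real.exp (12 * m ^ 2 / P) := by
    calc ((P + 2 * m - 1 : ℕ) : ℝ) ^ (2 * m)
        ≤ (((P + 1 - m : ℕ) : ℝ) * Real.exp (6 * m / P)) ^ (2 * m) :=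
          pow_le_pow_left₀ (by positivity) h3 _
      _ = ((P + 1 - m : ℕ) : ℝ) ^ (2 * m) * Real.exp (12 * m ^ 2 / P) := by
          rw [mul_pow, ← Real.exp_nat_mul]
          congr 2
          push_cast
          ring
  -- the central binomial coefficient
  have h5 : (4 : ℝ) ^ m / (2 * m) ≤ ((2 * m)! : ℕ) / ((m ! : ℕ) : ℝ) ^ 2 := by
    have h6 := Nat.four_pow_le_two_mul_self_mul_centralBinom m (by omega)
    have h7 : Nat.centralBinom m * (m ! * m !) = (2 * m)! := by
      rw [Nat.centralBinom_eq_two_mul_choose, ← mul_assoc]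
      have := Nat.choose_mul_factorial_mul_factorial (n := 2 * m) (k := m) (by omega)
      have h8 : 2 * m - m = m := by omega
      rw [h8] at this
      exact this
    rw [← h7, div_le_iff₀ (by positivity)]
    have h9 : (0 : ℝ) < ((m ! : ℕ) : ℝ) := by exact_mod_cast Nat.factorial_pos m
    have h10 : ((Nat.centralBinom m * (m ! * m !) : ℕ) : ℝ) / ((m ! : ℕ) : ℝ) ^ 2 =
        Nat.centralBinom m := by
      push_cast
      field_simp
    rw [h10]
    have h11 : ((4 ^ m : ℕ) : ℝ) ≤ ((2 * m * Nat.centralBinom m : ℕ) : ℝ) := by exact_mod_cast h6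
    push_cast at h11
    linarith
  have hf1 : (0 : ℝ) < ((m ! : ℕ) : ℝ) := by exact_mod_cast Nat.factorial_pos m
  have hf2 : (0 : ℝ) < (((2 * m)! : ℕ) : ℝ) := by exact_mod_cast Nat.factorial_pos (2 * m)
  have h6 : (1 : ℝ) / (((2 * m)! : ℕ) : ℝ) ≤ 1 / ((m ! : ℕ) : ℝ) ^ 2 * (2 * m / 4 ^ m) := by
    rw [div_mul_div_comm, one_mul, div_le_div_iff₀ hf2 (by positivity), one_mul]
    rw [div_le_div_iff₀ (by positivity) (by positivity)] at h5
    nlinarith
  calc ((P + 2 * m - 1).choose (2 * m) : ℝ)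
      ≤ ((P + 2 * m - 1 : ℕ) : ℝ) ^ (2 * m) / ((2 * m)! : ℕ) := h1
    _ ≤ (((P + 1 - m : ℕ) : ℝ) ^ (2 * m) * Real.exp (12 * m ^ 2 / P)) *
        (1 / ((m ! : ℕ) : ℝ) ^ 2 * (2 * m / 4 ^ m)) := by
        rw [div_eq_mul_one_div]
        exact mul_le_mul h4 h6 (by positivity) (by positivity)
    _ = (((P + 1 - m : ℕ) : ℝ) ^ m / (m ! : ℕ)) ^ 2 * (2 * m / 4 ^ m) *
        Real.exp (12 * m ^ 2 / P) := by
        rw [div_pow, ← pow_mul, mul_comm m 2]
        ring
    _ ≤ _ := by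
        apply mul_le_mul_of_nonneg_right _ (Real.exp_pos _).le
        apply mul_le_mul_of_nonneg_right _ (by positivity)
        exact pow_le_pow_left₀ (by positivity) h2 2

/-- **The example, explicit form.** -/
theorem example_explicit (n m x : ℕ) (hn : 2 ≤ n) (hm : 1 ≤ m)
    (hu : 2 ≤ Real.log n / m)
    (hx : m * (Real.exp (Real.log n / m) + 1) ≤ (Nat.primeCounting x : ℝ)) :
    ∃ A : Finset ℤ, A.card = n ∧ (∀ a ∈ A, 1 ≤ a ∧ a ≤ (x : ℤ) ^ m) ∧
      ((A * A).card : ℝ) ≤ (n : ℝ) ^ 2 * (8 * m / 4 ^ m) *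
        Real.exp (12 * m * Real.exp (1 - Real.log n / m)) := by
  classical
  have hn0 : (0 : ℝ) < n := by exact_mod_cast (by omega : 0 < n)
  have hm0 : (0 : ℝ) < m := by exact_mod_cast (by omega : 0 < m)
  set u : ℝ := Real.log n / m with hudef
  have hmu : m * u = Real.log n := by rw [hudef]; field_simp
  -- the number of primes is large enough
  have hpi : n ≤ (Nat.primeCounting x).choose m := by
    have h1 : (((Nat.primeCounting x + 1 - m : ℕ) : ℝ) ^ m / (m ! : ℕ)) ≤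
        ((Nat.primeCounting x).choose m : ℝ) := by
      have := Nat.pow_le_choose (α := ℝ) m (Nat.primeCounting x)
      exact_mod_cast this
    have hex : 0 < Real.exp u := Real.exp_pos u
    have hle : m ≤ Nat.primeCounting x := by
      have : (m : ℝ) ≤ Nat.primeCounting x := by nlinarith
      exact_mod_cast this
    have h2 : m * Real.exp u ≤ ((Nat.primeCounting x + 1 - m : ℕ) : ℝ) := by
      rw [Nat.cast_sub (by omega)]
      push_cast
      linarith
    have h3 : ((m ! : ℕ) : ℝ) ≤ (m : ℝ) ^ m := by exact_mod_cast Nat.factorial_le_pow m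
    have hf1 : (0 : ℝ) < ((m ! : ℕ) : ℝ) := by exact_mod_cast Nat.factorial_pos m
    have h4 : (n : ℝ) ≤ ((Nat.primeCounting x + 1 - m : ℕ) : ℝ) ^ m / (m ! : ℕ) := by
      rw [le_div_iff₀ hf1]
      calc (n : ℝ) * ((m ! : ℕ) : ℝ) ≤ n * (m : ℝ) ^ m := mul_le_mul_of_nonneg_left h3 hn0.le
        _ = (m * Real.exp u) ^ m := by
            rw [mul_pow, ← Real.exp_nat_mul, hmu, Real.exp_log hn0]
            ring
        _ ≤ _ := pow_le_pow_left₀ (by positivity) h2 m
    exact_mod_cast h4.trans h1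
  -- the minimal number of primes
  have hexP : ∃ P : ℕ, n ≤ P.choose m := ⟨_, hpi⟩
  set P := Nat.find hexP with hPdef
  have hP1 : n ≤ P.choose m := Nat.find_spec hexP
  have hP2 : P ≤ Nat.primeCounting x := Nat.find_min' hexP hpi
  have hPm : m < P := by
    by_contra h
    push Not at h
    rcases h.lt_or_eq with h | h
    · rw [Nat.choose_eq_zero_of_lt h] at hP1; omega
    · rw [h, Nat.choose_self] at hP1; omega
  have hP3 : (P - 1).choose m < n := by
    have := Nat.find_min hexP (m := P - 1) (by omega)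
    omega
  have hP0 : (0 : ℝ) < P := by exact_mod_cast (by omega : 0 < P)
  -- lower bound for `P`
  have hPlow : (m : ℝ) / P ≤ Real.exp (1 - u) := by
    have h1 : (P.choose m : ℝ) ≤ (P : ℝ) ^ m / (m ! : ℕ) := by
      have := Nat.choose_le_pow_div (α := ℝ) m P
      exact_mod_cast this
    have h2 : (m : ℝ) ^ m / (m ! : ℕ) ≤ Real.exp m :=
      Real.pow_div_factorial_le_exp (m : ℝ) hm0.le m
    have hf1 : (0 : ℝ) < ((m ! : ℕ) : ℝ) := by exact_mod_cast Nat.factorial_pos m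
    have h3 : (n : ℝ) ≤ (P : ℝ) ^ m / (m ! : ℕ) := by
      have : (n : ℝ) ≤ (P.choose m : ℝ) := by exact_mod_cast hP1
      linarith
    rw [le_div_iff₀ hf1] at h3
    rw [div_le_iff₀ hf1] at h2
    have h4 : ((m : ℝ) / P) ^ m ≤ (Real.exp (1 - u)) ^ m := by
      rw [div_pow, div_le_iff₀ (by positivity), ← Real.exp_nat_mul]
      have h5 : Real.exp (m * (1 - u)) = Real.exp m / n := by
        rw [mul_sub, mul_one, hmu, Real.exp_sub, Real.exp_log hn0]
      rw [h5]
      calc (m : ℝ) ^ m ≤ Real.exp m * ((m ! : ℕ) : ℝ) := h2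
        _ = Real.exp m / n * (n * ((m ! : ℕ) : ℝ)) := by field_simp
        _ ≤ _ := mul_le_mul_of_nonneg_left h3 (by positivity)
    exact le_of_pow_le_pow_left₀ (by omega) (Real.exp_pos _).le h4
  have hP2m : 2 * m ≤ P := by
    have h1 : Real.exp (1 - u) ≤ 1 / 2 := by
      have h2 : Real.exp (1 - u) ≤ Real.exp (-1) := Real.exp_le_exp.2 (by linarith)
      have h3 : Real.exp (-1) ≤ 1 / 2 := by
        have h4 : (2 : ℝ) ≤ Real.exp 1 := by
          have := Real.add_one_le_exp (1 : ℝ)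
          linarith
        rw [Real.exp_neg, inv_eq_one_div, div_le_div_iff₀ (Real.exp_pos 1) (by norm_num)]
        linarith
      linarith
    have h2 : (m : ℝ) / P ≤ 1 / 2 := hPlow.trans h1
    rw [div_le_div_iff₀ hP0 (by norm_num)] at h2
    have h3 : (2 * m : ℝ) ≤ P := by linarith
    exact_mod_cast h3
  -- upper bound for the number of products
  have hup : (P.choose m : ℝ) ≤ 2 * n := by
    have h1 := Nat.choose_mul_succ_eq (P - 1) m
    have h2 : P - 1 + 1 = P := by omega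
    rw [h2] at h1
    have h3 : (((P - 1).choose m : ℕ) : ℝ) * P = (P.choose m : ℝ) * ((P - m : ℕ) : ℝ) := by
      exact_mod_cast h1
    have h4 : (P : ℝ) / 2 ≤ ((P - m : ℕ) : ℝ) := by
      rw [Nat.cast_sub hPm.le]
      have : (2 * m : ℝ) ≤ P := by exact_mod_cast hP2m
      linarith
    have h5 : (((P - 1).choose m : ℕ) : ℝ) ≤ n := by exact_mod_cast hP3.le
    have h6 : (P.choose m : ℝ) * (P / 2) ≤ n * P := by
      calc (P.choose m : ℝ) * (P / 2) ≤ (P.choose m : ℝ) * ((P - m : ℕ) : ℝ) :=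
            mul_le_mul_of_nonneg_left h4 (by positivity)
        _ = (((P - 1).choose m : ℕ) : ℝ) * P := h3.symm
        _ ≤ _ := mul_le_mul_of_nonneg_right h5 hP0.le
    nlinarith
  -- choose the primes
  obtain ⟨Q, hQ, hQc⟩ := exists_subset_card_eq (s := Nat.primesLE x) (n := P) (by
    rw [Nat.primesLE_card_eq_primeCounting]; exact hP2)
  have hQp : ∀ p ∈ Q, p.Prime := fun p hp => Nat.prime_of_mem_primesLE (hQ hp)
  have hQx : ∀ p ∈ Q, p ≤ x := fun p hp => Nat.le_of_mem_primesLE (hQ hp)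
  obtain ⟨A, hA, hAc⟩ := exists_subset_card_eq (s := prods Q m) (n := n) (by
    rw [card_prods hQp, hQc]; exact hP1)
  refine ⟨A, hAc, fun a ha => prods_bounds hQp m x hQx a (hA ha), ?_⟩
  have h1 : ((A * A).card : ℝ) ≤ ((P + 2 * m - 1).choose (2 * m) : ℝ) := by
    have h2 := (card_le_card (mul_subset_mul hA hA)).trans (card_prods_mul_prods_le Q m)
    rw [hQc] at h2
    exact_mod_cast h2
  refine h1.trans ((choose_ineq hm hP2m).trans ?_)
  have h3 : Real.exp (12 * m ^ 2 / P) ≤ Real.exp (12 * m * Real.exp (1 - u)) := by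
    apply Real.exp_le_exp.2
    calc 12 * (m : ℝ) ^ 2 / P = 12 * m * (m / P) := by ring
      _ ≤ _ := mul_le_mul_of_nonneg_left hPlow (by positivity)
  have h4 : (P.choose m : ℝ) ^ 2 * (2 * m / 4 ^ m) ≤ (n : ℝ) ^ 2 * (8 * m / 4 ^ m) := by
    calc (P.choose m : ℝ) ^ 2 * (2 * m / 4 ^ m) ≤ (2 * n : ℝ) ^ 2 * (2 * m / 4 ^ m) := by
          apply mul_le_mul_of_nonneg_right _ (by positivity)
          exact pow_le_pow_left₀ (by positivity) hup 2
      _ = _ := by ring
  exact mul_le_mul h4 h3 (Real.exp_pos _).le (by positivity)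

end Pool.Agent.Helper77.SP
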