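import Pool.Agent.Helper77.SP.Div

open Finset Filter Topology
open scoped Pointwise

namespace Pool.Agent.Helper77.SP

lemma asym {δ Z ε : ℝ} (hδ : 0 < δ) (hδ1 : δ ≤ 1 / 2) (hZ : 0 ≤ Z) (hε : 0 < ε) :
    ∀ᶠ L : ℝ in atTop, Real.log L * (Real.log 2 + (2 * L ^ (1 - δ) + 1) * Real.log (4 * L)) +
      2 * (2 * Real.log 2 + 4 * L ^ (1 - δ) * Z) ≤ ε * L := by
  have h1 := (isLittleO_log_rpow_atTop (show 0 < δ / 4 by positivity)).bound
    (show (0 : ℝ) < 1 by norm_num)
  have h2 := (tendsto_rpow_atTop (show 0 < δ / 2 by positivity)).eventually_ge_atTop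
    ((11 + 8 * Z) / ε)
  filter_upwards [h1, h2, eventually_ge_atTop (4 : ℝ)] with L h1 h2 h4
  have hL0 : 0 < L := by linarith
  have hL1 : 1 ≤ L := by linarith
  have hlog0 : 0 ≤ Real.log L := Real.log_nonneg hL1
  have hlog : Real.log L ≤ L ^ (δ / 4) := by
    rw [one_mul, Real.norm_of_nonneg hlog0, Real.norm_of_nonneg (by positivity)] at h1
    exact h1
  have hlog4 : Real.log (4 * L) ≤ 2 * L ^ (δ / 4) := by
    rw [Real.log_mul (by norm_num) hL0.ne']
    have : Real.log 4 ≤ Real.log L := Real.log_le_log (by norm_num) h4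
    linarith
  have hlog4' : 0 ≤ Real.log (4 * L) := Real.log_nonneg (by linarith)
  have hl2 : Real.log 2 ≤ 1 := by
    have := Real.log_two_lt_d9
    linarith
  have hl20 : 0 ≤ Real.log 2 := Real.log_nonneg (by norm_num)
  set U : ℝ := L ^ (1 - δ / 2) with hU
  have hU1 : 1 ≤ U := Real.one_le_rpow hL1 (by linarith)
  have hUa : L ^ (δ / 4) ≤ U := Real.rpow_le_rpow_of_exponent_le hL1 (by linarith)
  have hUb : L ^ (1 - δ) ≤ U := Real.rpow_le_rpow_of_exponent_le hL1 (by linarith)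
  have hUc : L ^ (δ / 4) * (L ^ (1 - δ) * L ^ (δ / 4)) = U := by
    rw [← Real.rpow_add hL0, ← Real.rpow_add hL0, hU]
    congr 1; ring
  have hW1 : 1 ≤ L ^ (1 - δ) := Real.one_le_rpow hL1 (by linarith)
  have hV0 : 0 ≤ L ^ (δ / 4) := by positivity
  have hF1 : (2 * L ^ (1 - δ) + 1) * Real.log (4 * L) ≤
      6 * (L ^ (1 - δ) * L ^ (δ / 4)) := by
    calc (2 * L ^ (1 - δ) + 1) * Real.log (4 * L)
        ≤ (3 * L ^ (1 - δ)) * (2 * L ^ (δ / 4)) := by
          apply mul_le_mul (by linarith) hlog4 hlog4' (by positivity)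
      _ = _ := by ring
  have hF2 : Real.log L * (Real.log 2 + (2 * L ^ (1 - δ) + 1) * Real.log (4 * L)) ≤ 7 * U := by
    calc Real.log L * (Real.log 2 + (2 * L ^ (1 - δ) + 1) * Real.log (4 * L))
        ≤ L ^ (δ / 4) * (1 + 6 * (L ^ (1 - δ) * L ^ (δ / 4))) := by
          apply mul_le_mul hlog (by linarith) _ hV0
          positivity
      _ = L ^ (δ / 4) + 6 * (L ^ (δ / 4) * (L ^ (1 - δ) * L ^ (δ / 4))) := by ring
      _ ≤ 7 * U := by rw [hUc]; linarith
  have hF3 : 2 * (2 * Real.log 2 + 4 * L ^ (1 - δ) * Z) ≤ (4 + 8 * Z) * U := by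
    have : L ^ (1 - δ) * Z ≤ U * Z := mul_le_mul_of_nonneg_right hUb hZ
    nlinarith
  have hF4 : (11 + 8 * Z) * U ≤ ε * L := by
    have h5 : L = L ^ (δ / 2) * U := by
      rw [hU, ← Real.rpow_add hL0]
      have : δ / 2 + (1 - δ / 2) = 1 := by ring
      rw [this, Real.rpow_one]
    have h6 : 11 + 8 * Z ≤ ε * L ^ (δ / 2) := by
      rw [div_le_iff₀ hε] at h2
      linarith
    calc (11 + 8 * Z) * U ≤ (ε * L ^ (δ / 2)) * U :=
          mul_le_mul_of_nonneg_right h6 (by linarith)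
      _ = ε * (L ^ (δ / 2) * U) := by ring
      _ = ε * L := by rw [← h5]
  linarith

/-- **Products of sets of integers in a bounded interval, with the sharp constant.** -/
theorem lower (ε : ℝ) (hε : 0 < ε) : ∃ N₀ : ℕ, ∀ N : ℕ, N₀ ≤ N → ∀ A B : Finset ℤ,
    (∀ a ∈ A, a ≠ 0 ∧ |a| ≤ N) → (∀ b ∈ B, b ≠ 0 ∧ |b| ≤ N) →
    (A.card : ℝ) * B.card ≤ (A * B).card *
      Real.exp ((Real.log 2 * Real.log ((N : ℝ) ^ 2 / (A.card * B.card)) + ε * Real.log N) /
        Real.log (Real.log N)) := by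
  classical
  set δ : ℝ := min (1 / 2) (ε / 16) with hδ
  have hδ0 : 0 < δ := lt_min (by norm_num) (by positivity)
  have hδ1 : δ ≤ 1 / 2 := min_le_left _ _
  have hδ2 : δ ≤ ε / 16 := min_le_right _ _
  set s : ℝ := 1 + δ with hs
  set Z : ℝ := ∑' n : ℕ, ((n : ℝ) ^ s)⁻¹ with hZ
  have hZ0 : 0 ≤ Z := tsum_nonneg fun n => by positivity
  have hlogN : Tendsto (fun N : ℕ => Real.log (N : ℝ)) atTop atTop :=
    Real.tendsto_log_atTop.comp tendsto_natCast_atTop_atTop
  have hev : ∀ᶠ N : ℕ in atTop, (Real.log (Real.log N) * (Real.log 2 +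
      (2 * (Real.log N) ^ (1 - δ) + 1) * Real.log (4 * Real.log N)) +
      2 * (2 * Real.log 2 + 4 * (Real.log N) ^ (1 - δ) * Z) ≤ (ε / 2) * Real.log N) ∧
      (4 : ℝ) ≤ Real.log N :=
    (hlogN.eventually (asym hδ0 hδ1 hZ0 (half_pos hε))).and
      (hlogN.eventually (eventually_ge_atTop (4 : ℝ)))
  obtain ⟨N₀, hN₀⟩ := eventually_atTop.1 hev
  refine ⟨N₀, fun N hN A B hA hB => ?_⟩
  obtain ⟨hF, hL4⟩ := hN₀ N hN
  rcases A.eq_empty_or_nonempty with rfl | hAne
  · simp
  rcases B.eq_empty_or_nonempty with rfl | hBne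
  · simp
  have hcA : (0 : ℝ) < A.card := by exact_mod_cast hAne.card_pos
  have hcB : (0 : ℝ) < B.card := by exact_mod_cast hBne.card_pos
  have hcAB : (0 : ℝ) < (A * B).card := by exact_mod_cast (hAne.mul hBne).card_pos
  set L : ℝ := Real.log N with hL
  have hL0 : 0 < L := by linarith
  have hLL : 0 < Real.log L := Real.log_pos (by linarith)
  have hN1 : (1 : ℝ) < N := by
    by_contra h
    push Not at h
    have : L ≤ 0 := Real.log_nonpos (by positivity) h
    linarith
  have hN0 : (0 : ℝ) < N := by linarith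
  set w : ℝ := L ^ (1 - δ) with hw
  have hw1 : 1 < w := Real.one_lt_rpow (by linarith) (by linarith)
  have hlw : Real.log w = (1 - δ) * Real.log L := by rw [hw, Real.log_rpow hL0]
  set y : ℕ := ⌈2 * w⌉₊ with hy
  have hy1 : 2 * w ≤ y := Nat.le_ceil _
  have hy2 : (y : ℝ) ≤ 2 * w + 1 := (Nat.ceil_lt_add_one (by positivity)).le
  have hmain := explicit A B hAne hBne N y hA hB hw1 (show 1 < s by linarith) hy1
  rw [← hZ, ← hL] at hmain
  -- bounds for the cardinalities
  have hcard : ∀ T : Finset ℤ, T.Nonempty → (∀ a ∈ T, a ≠ 0 ∧ |a| ≤ N) →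
      0 ≤ Real.log T.card := by
    intro T hT _
    exact Real.log_nonneg (by exact_mod_cast hT.card_pos)
  have hXA := hcard A hAne hA
  have hXB := hcard B hBne hB
  -- the logarithm of `log₂ (N^2) + 1`
  have hlg : Real.log ((Nat.log 2 (N ^ 2) + 1 : ℕ) : ℝ) ≤ Real.log (4 * L) := by
    apply Real.log_le_log (by exact_mod_cast Nat.succ_pos _)
    have h1 : (2 : ℝ) ^ (Nat.log 2 (N ^ 2)) ≤ (N : ℝ) ^ 2 := by
      have hN0' : N ^ 2 ≠ 0 := by
        have : N ≠ 0 := by
          rintro rfl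
          norm_num at hN0
        positivity
      exact_mod_cast Nat.pow_log_le_self 2 hN0'
    have h2 := Real.log_le_log (by positivity) h1
    rw [Real.log_pow, Real.log_pow, ← hL] at h2
    have h3 := Real.log_two_gt_d9
    push_cast at h2 ⊢
    have h4 : (0 : ℝ) ≤ (Nat.log 2 (N ^ 2) : ℝ) := by positivity
    nlinarith
  have hlg0 : 0 ≤ Real.log ((Nat.log 2 (N ^ 2) + 1 : ℕ) : ℝ) :=
    Real.log_nonneg (by exact_mod_cast Nat.succ_le_succ (Nat.zero_le _))
  have hyl : y * Real.log ((Nat.log 2 (N ^ 2) + 1 : ℕ) : ℝ) ≤ (2 * w + 1) * Real.log (4 * L) :=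
    mul_le_mul hy2 hlg hlg0 (by positivity)
  -- the main term
  set R : ℝ := 2 * L - Real.log A.card - Real.log B.card with hR
  have hlogR : Real.log ((N : ℝ) ^ 2 / (A.card * B.card)) = R := by
    rw [Real.log_div (by positivity) (by positivity), Real.log_pow, Real.log_mul hcA.ne' hcB.ne',
      ← hL, hR]
    push_cast
    ring
  have hR2 : R ≤ 2 * L := by rw [hR]; linarith
  rw [hlogR]
  have hl2 : 0 < Real.log 2 := Real.log_pos (by norm_num)
  have hl21 : Real.log 2 ≤ 0.7 := by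
    have := Real.log_two_lt_d9
    linarith
  have h1δ : 0 < 1 - δ := by linarith
  -- multiply by `log L`
  have key : Real.log L * (Real.log 2 + y * Real.log ((Nat.log 2 (N ^ 2) + 1 : ℕ) : ℝ) +
      Real.log 2 / Real.log w * (2 * Real.log 2 + 2 * s * L + 4 * w * Z - Real.log A.card -
        Real.log B.card)) ≤ Real.log 2 * R + ε * L := by
    have e1 : Real.log L * (Real.log 2 / Real.log w * (2 * Real.log 2 + 2 * s * L + 4 * w * Z -
        Real.log A.card - Real.log B.card)) =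
        Real.log 2 / (1 - δ) * (R + (2 * Real.log 2 + 4 * w * Z) + 2 * δ * L) := by
      rw [hlw, hR, hs]
      field_simp
      ring
    have e2 : Real.log 2 / (1 - δ) * R ≤ Real.log 2 * R + 2.8 * δ * L := by
      have : Real.log 2 / (1 - δ) * R = Real.log 2 * R + Real.log 2 * (δ / (1 - δ)) * R := by
        field_simp
        ring
      rw [this]
      have h5 : δ / (1 - δ) ≤ 2 * δ := by
        rw [div_le_iff₀ h1δ]
        nlinarith
      have h6 : 0 ≤ δ / (1 - δ) := by positivity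
      have h7 : Real.log 2 * (δ / (1 - δ)) * R ≤ Real.log 2 * (δ / (1 - δ)) * (2 * L) :=
        mul_le_mul_of_nonneg_left hR2 (by positivity)
      have h8 : Real.log 2 * (δ / (1 - δ)) * (2 * L) ≤ 0.7 * (2 * δ) * (2 * L) := by
        apply mul_le_mul_of_nonneg_right _ (by positivity)
        exact mul_le_mul hl21 h5 h6 (by norm_num)
      nlinarith
    have e3 : Real.log 2 / (1 - δ) ≤ 1.4 := by
      rw [div_le_iff₀ h1δ]
      nlinarith
    have e4 : Real.log 2 / (1 - δ) * (2 * Real.log 2 + 4 * w * Z) ≤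
        2 * (2 * Real.log 2 + 4 * w * Z) := by
      apply mul_le_mul_of_nonneg_right (by linarith) (by positivity)
    have e5 : Real.log 2 / (1 - δ) * (2 * δ * L) ≤ 1.4 * (2 * δ * L) :=
      mul_le_mul_of_nonneg_right e3 (by positivity)
    have e6 : Real.log L * (Real.log 2 + y * Real.log ((Nat.log 2 (N ^ 2) + 1 : ℕ) : ℝ)) ≤
        Real.log L * (Real.log 2 + (2 * w + 1) * Real.log (4 * L)) :=
      mul_le_mul_of_nonneg_left (by linarith) hLL.le
    have e7 : δ * L ≤ ε / 16 * L := mul_le_mul_of_nonneg_right hδ2 hL0.le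
    calc _ = Real.log L * (Real.log 2 + y * Real.log ((Nat.log 2 (N ^ 2) + 1 : ℕ) : ℝ)) +
          Real.log L * (Real.log 2 / Real.log w * (2 * Real.log 2 + 2 * s * L + 4 * w * Z -
        Real.log A.card - Real.log B.card)) := by ring
      _ ≤ Real.log L * (Real.log 2 + (2 * w + 1) * Real.log (4 * L)) +
          (Real.log 2 * R + 2.8 * δ * L + 2 * (2 * Real.log 2 + 4 * w * Z) +
            1.4 * (2 * δ * L)) := by
          rw [e1, mul_add, mul_add]
          linarith
      _ ≤ Real.log 2 * R + ε * L := by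
          nlinarith
  have hlogs : Real.log A.card + Real.log B.card ≤ Real.log (A * B).card +
      (Real.log 2 * R + ε * L) / Real.log L := by
    have h9 : Real.log 2 + y * Real.log ((Nat.log 2 (N ^ 2) + 1 : ℕ) : ℝ) +
      Real.log 2 / Real.log w * (2 * Real.log 2 + 2 * s * L + 4 * w * Z - Real.log A.card -
        Real.log B.card) ≤ (Real.log 2 * R + ε * L) / Real.log L := by
      rw [le_div_iff₀ hLL, mul_comm]
      exact key
    linarith
  have h10 : Real.log ((A.card : ℝ) * B.card) ≤ Real.log ((A * B).card *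
      Real.exp ((Real.log 2 * R + ε * L) / Real.log L)) := by
    rw [Real.log_mul hcA.ne' hcB.ne', Real.log_mul hcAB.ne' (Real.exp_ne_zero _), Real.log_exp]
    exact hlogs
  exact (Real.log_le_log_iff (by positivity) (by positivity)).1 h10

end Pool.Agent.Helper77.SP
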