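import Mathlib

open Finset

namespace Pool.Agent.Helper77.SP

/-- the number of prime factors above `y`, with multiplicity -/
def bo (y n : ℕ) : ℕ := n.factorization.sum fun p k => if y < p then k else 0

lemma bo_one (y : ℕ) : bo y 1 = 0 := by simp [bo]

lemma bo_mul {y a b : ℕ} (ha : a ≠ 0) (hb : b ≠ 0) : bo y (a * b) = bo y a + bo y b := by
  unfold bo
  rw [Nat.factorization_mul ha hb, Finsupp.sum_add_index']
  · intro p; split_ifs <;> rfl
  · intro p k l; split_ifs <;> rfl

lemma bo_prime {y p : ℕ} (hp : p.Prime) : bo y p = if y < p then 1 else 0 := by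
  unfold bo
  rw [hp.factorization, Finsupp.sum_single_index]
  split_ifs <;> rfl

/-- the completely multiplicative weight -/
noncomputable def wt (w s : ℝ) (y : ℕ) : ℕ →* ℝ where
  toFun a := if a = 0 then 0 else w ^ (bo y a) * ((a : ℝ) ^ s)⁻¹
  map_one' := by simp [bo_one]
  map_mul' a b := by
    by_cases ha : a = 0
    · simp [ha]
    by_cases hb : b = 0
    · simp [hb]
    rw [if_neg (mul_ne_zero ha hb), if_neg ha, if_neg hb, bo_mul ha hb, pow_add, Nat.cast_mul,
      Real.mul_rpow (by positivity) (by positivity), mul_inv]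
    ring

lemma wt_apply {w s : ℝ} {y a : ℕ} (ha : a ≠ 0) :
    wt w s y a = w ^ (bo y a) * ((a : ℝ) ^ s)⁻¹ := by
  change (if a = 0 then 0 else w ^ (bo y a) * ((a : ℝ) ^ s)⁻¹) = _
  rw [if_neg ha]

lemma wt_nonneg {w s : ℝ} (hw : 0 ≤ w) {y : ℕ} (a : ℕ) : 0 ≤ wt w s y a := by
  change 0 ≤ (if a = 0 then 0 else w ^ (bo y a) * ((a : ℝ) ^ s)⁻¹)
  split_ifs
  · exact le_rfl
  · positivity

lemma wt_prime_le {w s : ℝ} (hw : 1 ≤ w) {y p : ℕ} (hp : p.Prime) :
    wt w s y p ≤ w * ((p : ℝ) ^ s)⁻¹ := by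
  rw [wt_apply hp.ne_zero, bo_prime hp]
  split_ifs
  · simp
  · rw [pow_zero]
    apply mul_le_mul_of_nonneg_right hw
    positivity

lemma wt_prime_half {w s : ℝ} (_hw : 1 ≤ w) (hs : 1 ≤ s) {y p : ℕ} (hy : 2 * w ≤ y)
    (hp : p.Prime) : wt w s y p ≤ 1 / 2 := by
  have hp2 : (2 : ℝ) ≤ p := by exact_mod_cast hp.two_le
  have hps : (p : ℝ) ≤ (p : ℝ) ^ s := Real.self_le_rpow_of_one_le (by linarith) hs
  have hpos : (0 : ℝ) < (p : ℝ) ^ s := by positivity
  rw [wt_apply hp.ne_zero, bo_prime hp]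
  split_ifs with h
  · rw [pow_one, ← div_eq_mul_inv, div_le_div_iff₀ hpos (by norm_num)]
    have : (y : ℝ) < p := by exact_mod_cast h
    linarith
  · rw [pow_zero, one_mul, inv_eq_one_div, div_le_div_iff₀ hpos (by norm_num)]
    linarith

lemma inv_one_sub_le {x : ℝ} (h0 : 0 ≤ x) (h1 : x ≤ 1 / 2) : (1 - x)⁻¹ ≤ Real.exp (2 * x) := by
  have h2 : (0 : ℝ) < 1 - x := by linarith
  have h3 : 2 * x + 1 ≤ Real.exp (2 * x) := Real.add_one_le_exp _
  refine le_trans ?_ h3
  rw [inv_le_iff_one_le_mul₀ h2]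
  nlinarith

/-- **Rankin's bound for the moments of the number of large prime factors.** -/
lemma moment {w s : ℝ} (hw : 1 ≤ w) (hs : 1 < s) {y : ℕ} (hy : 2 * w ≤ y) (N : ℕ) :
    ∑ a ∈ Icc 1 N, w ^ (bo y a) ≤
      (N : ℝ) ^ s * Real.exp (2 * w * ∑' n : ℕ, ((n : ℝ) ^ s)⁻¹) := by
  have hw0 : (0 : ℝ) ≤ w := by linarith
  have hs0 : (0 : ℝ) ≤ s := by linarith
  have hsum : Summable fun n : ℕ => ((n : ℝ) ^ s)⁻¹ := Real.summable_nat_rpow_inv.2 hs
  have hlt : ∀ {p : ℕ}, p.Prime → ‖wt w s y p‖ < 1 := by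
    intro p hp
    rw [Real.norm_of_nonneg (wt_nonneg hw0 p)]
    have := wt_prime_half hw hs.le hy hp
    linarith
  obtain ⟨-, h2⟩ := EulerProduct.summable_and_hasSum_smoothNumbers_prod_primesBelow_geometric
    hlt (N + 1)
  -- the finite sum is at most the sum over smooth numbers
  have h3 : ∑ a ∈ Icc 1 N, wt w s y a ≤ ∏ p ∈ (N + 1).primesBelow, (1 - wt w s y p)⁻¹ := by
    have hmem : ∀ a ∈ Icc 1 N, a ∈ (N + 1).smoothNumbers := by
      intro a ha
      rw [mem_Icc] at ha
      rw [Nat.mem_smoothNumbers]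
      refine ⟨by omega, fun p hp => ?_⟩
      have := Nat.le_of_mem_primeFactorsList hp
      omega
    have h4 : ∑ a ∈ Icc 1 N, wt w s y a =
        ∑ a ∈ (Icc 1 N).attach.image (fun a => (⟨a.1, hmem a.1 a.2⟩ : (N + 1).smoothNumbers)),
          wt w s y a := by
      rw [sum_image]
      · exact (sum_attach (Icc 1 N) (fun a => wt w s y a)).symm
      · intro a _ b _ hab
        have := congrArg Subtype.val hab
        exact Subtype.ext this
    rw [h4]
    exact sum_le_hasSum _ (fun a _ => wt_nonneg hw0 _) h2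
  have h5 : ∏ p ∈ (N + 1).primesBelow, (1 - wt w s y p)⁻¹ ≤
      Real.exp (2 * w * ∑' n : ℕ, ((n : ℝ) ^ s)⁻¹) := by
    calc ∏ p ∈ (N + 1).primesBelow, (1 - wt w s y p)⁻¹
        ≤ ∏ p ∈ (N + 1).primesBelow, Real.exp (2 * wt w s y p) := by
          apply prod_le_prod
          · intro p hp
            have := wt_prime_half hw hs.le hy (Nat.prime_of_mem_primesBelow hp)
            exact inv_nonneg.2 (by linarith)
          · intro p hp
            exact inv_one_sub_le (wt_nonneg hw0 p)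
              (wt_prime_half hw hs.le hy (Nat.prime_of_mem_primesBelow hp))
      _ = Real.exp (∑ p ∈ (N + 1).primesBelow, 2 * wt w s y p) := by rw [Real.exp_sum]
      _ ≤ _ := by
          apply Real.exp_le_exp.2
          calc ∑ p ∈ (N + 1).primesBelow, 2 * wt w s y p
              ≤ ∑ p ∈ (N + 1).primesBelow, 2 * w * ((p : ℝ) ^ s)⁻¹ := by
                apply sum_le_sum
                intro p hp
                have := wt_prime_le (s := s) (y := y) hw (Nat.prime_of_mem_primesBelow hp)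
                linarith
            _ = 2 * w * ∑ p ∈ (N + 1).primesBelow, ((p : ℝ) ^ s)⁻¹ := by rw [mul_sum]
            _ ≤ _ := by
                apply mul_le_mul_of_nonneg_left _ (by linarith)
                exact hsum.sum_le_tsum _ (fun i _ => by positivity)
  calc ∑ a ∈ Icc 1 N, w ^ (bo y a) ≤ ∑ a ∈ Icc 1 N, (N : ℝ) ^ s * wt w s y a := by
        apply sum_le_sum
        intro a ha
        rw [mem_Icc] at ha
        have ha0 : a ≠ 0 := by omega
        rw [wt_apply ha0]
        have hapos : (0 : ℝ) < (a : ℝ) ^ s := by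
          have : (0 : ℝ) < a := by exact_mod_cast (by omega : 0 < a)
          positivity
        have h6 : (a : ℝ) ^ s ≤ (N : ℝ) ^ s :=
          Real.rpow_le_rpow (by positivity) (by exact_mod_cast ha.2) hs0
        have h7 : 1 ≤ (N : ℝ) ^ s * ((a : ℝ) ^ s)⁻¹ := by
          rw [← div_eq_mul_inv, one_le_div hapos]; exact h6
        have h8 : 0 ≤ w ^ (bo y a) := by positivity
        calc w ^ (bo y a) = w ^ (bo y a) * 1 := (mul_one _).symm
          _ ≤ w ^ (bo y a) * ((N : ℝ) ^ s * ((a : ℝ) ^ s)⁻¹) := mul_le_mul_of_nonneg_left h7 h8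
          _ = _ := by ring
    _ = (N : ℝ) ^ s * ∑ a ∈ Icc 1 N, wt w s y a := by rw [mul_sum]
    _ ≤ _ := by
        apply mul_le_mul_of_nonneg_left (h3.trans h5)
        positivity

end Pool.Agent.Helper77.SP
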