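import Pool.Agent.Helper77.SP.Ex

open Finset Filter Topology
open scoped Pointwise Nat

namespace Pool.Agent.Helper77.SP

lemma pi_lower {X : ℝ} (hX : 22 ≤ X) :
    X / (2 * Real.log X) ≤ (Nat.primeCounting ⌊X⌋₊ : ℝ) := by
  have h1 : ((X - 1) * Real.log 2 - Real.log (X + 2)) / Real.log X ≤
      (Nat.primeCounting ⌊X⌋₊ : ℝ) := by
    exact_mod_cast Chebyshev.pi_ge' (x := X) (by linarith)
  refine le_trans ?_ h1
  have hlX : 0 < Real.log X := Real.log_pos (by linarith)
  have h2 : Real.log (X + 2) ≤ X / 16 + 2 := by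
    have h3 : Real.log (X + 2) = Real.log ((X + 2) / 16) + Real.log 16 := by
      rw [Real.log_div (by linarith) (by norm_num)]
      ring
    have h4 : Real.log ((X + 2) / 16) ≤ (X + 2) / 16 - 1 :=
      Real.log_le_sub_one_of_pos (by positivity)
    have h5 : Real.log 16 = 4 * Real.log 2 := by
      rw [show (16 : ℝ) = 2 ^ 4 by norm_num, Real.log_pow]
      norm_num
    have h6 := Real.log_two_lt_d9
    rw [h3, h5]
    linarith
  have h6 := Real.log_two_gt_d9
  rw [div_le_div_iff₀ (by positivity) hlX]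
  have h7 : X ≤ ((X - 1) * Real.log 2 - Real.log (X + 2)) * 2 := by nlinarith
  calc X * Real.log X ≤ (((X - 1) * Real.log 2 - Real.log (X + 2)) * 2) * Real.log X :=
        mul_le_mul_of_nonneg_right h7 hlX.le
    _ = _ := by ring

lemma asym2 {c K ε : ℝ} (hc : 0 < c) (hcK : c < K - 1) (hε : 0 < ε) :
    ∀ᶠ L : ℝ in atTop, 1 ≤ Real.log L ∧ 4 * c ≤ Real.log L ∧ 4 * K ≤ L ^ ((K - 1) / c - 1) ∧
      Real.log L * Real.log (32 * c * L) ≤ ε / 4 * L ∧
      12 * c * Real.exp (1 - Real.log L / c) ≤ ε / 4 ∧ Real.log L ≤ c * L := by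
  have h1 := Real.tendsto_log_atTop.eventually_ge_atTop 1
  have h2 := Real.tendsto_log_atTop.eventually_ge_atTop (4 * c)
  have hpos : 0 < (K - 1) / c - 1 := by
    rw [sub_pos, lt_div_iff₀ hc]
    linarith
  have h3 := (tendsto_rpow_atTop hpos).eventually_ge_atTop (4 * K)
  have h4 := (isLittleO_log_rpow_atTop (show (0 : ℝ) < 1 / 4 by norm_num)).bound
    (show (0 : ℝ) < 1 by norm_num)
  have h5 := (tendsto_rpow_atTop (show (0 : ℝ) < 1 / 2 by norm_num)).eventually_ge_atTop (8 / ε)
  have h6 := Real.tendsto_log_atTop.eventually_ge_atTop (c * (1 + Real.log (48 * c / ε)))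
  have h7 := (isLittleO_log_rpow_atTop (show (0 : ℝ) < 1 by norm_num)).bound hc
  filter_upwards [h1, h2, h3, h4, h5, h6, h7, eventually_ge_atTop (1 : ℝ),
    eventually_ge_atTop (32 * c)] with L h1 h2 h3 h4 h5 h6 h7 h8 h9
  have hL0 : 0 < L := by linarith
  have hl0 : 0 ≤ Real.log L := by linarith
  refine ⟨h1, h2, h3, ?_, ?_, ?_⟩
  · have h10 : Real.log L ≤ L ^ (1 / 4 : ℝ) := by
      rw [one_mul, Real.norm_of_nonneg hl0, Real.norm_of_nonneg (by positivity)] at h4
      exact h4
    have h11 : Real.log (32 * c * L) ≤ 2 * L ^ (1 / 4 : ℝ) := by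
      rw [Real.log_mul (by positivity) hL0.ne']
      have : Real.log (32 * c) ≤ Real.log L := Real.log_le_log (by positivity) h9
      linarith
    have h12 : L ^ (1 / 4 : ℝ) * L ^ (1 / 4 : ℝ) = L ^ (1 / 2 : ℝ) := by
      rw [← Real.rpow_add hL0]
      norm_num
    have h13 : L ^ (1 / 2 : ℝ) * L ^ (1 / 2 : ℝ) = L := by
      rw [← Real.rpow_add hL0]
      norm_num
    have h14 : 8 ≤ ε * L ^ (1 / 2 : ℝ) := by
      rw [div_le_iff₀ hε] at h5
      linarith
    calc Real.log L * Real.log (32 * c * L) ≤ Real.log L * (2 * L ^ (1 / 4 : ℝ)) :=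
          mul_le_mul_of_nonneg_left h11 hl0
      _ ≤ L ^ (1 / 4 : ℝ) * (2 * L ^ (1 / 4 : ℝ)) :=
          mul_le_mul_of_nonneg_right h10 (by positivity)
      _ = 2 * L ^ (1 / 2 : ℝ) := by rw [← h12]; ring
      _ ≤ (ε * L ^ (1 / 2 : ℝ) / 4) * L ^ (1 / 2 : ℝ) := by
          apply mul_le_mul_of_nonneg_right _ (by positivity)
          linarith
      _ = ε / 4 * (L ^ (1 / 2 : ℝ) * L ^ (1 / 2 : ℝ)) := by ring
      _ = ε / 4 * L := by rw [h13]
  · have h10 : 1 - Real.log L / c ≤ -Real.log (48 * c / ε) := by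
      have : 1 + Real.log (48 * c / ε) ≤ Real.log L / c := by
        rw [le_div_iff₀ hc]
        linarith
      linarith
    have h11 : Real.exp (1 - Real.log L / c) ≤ (48 * c / ε)⁻¹ := by
      have h12 : Real.exp (-Real.log (48 * c / ε)) = (48 * c / ε)⁻¹ := by
        rw [Real.exp_neg, Real.exp_log (by positivity)]
      rw [← h12]
      exact Real.exp_le_exp.2 h10
    calc 12 * c * Real.exp (1 - Real.log L / c) ≤ 12 * c * (48 * c / ε)⁻¹ :=
          mul_le_mul_of_nonneg_left h11 (by positivity)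
      _ = ε / 4 := by field_simp; norm_num
  · rw [Real.rpow_one, Real.norm_of_nonneg hl0, Real.norm_of_nonneg hL0.le] at h7
    exact h7

/-- **Sets of `n` integers below `n ^ K` with few products.** -/
theorem upper (K : ℝ) (hK : 1 < K) (ε : ℝ) (hε : 0 < ε) : ∃ n₀ : ℕ, ∀ n : ℕ, n₀ ≤ n →
    ∃ A : Finset ℤ, A.card = n ∧ (∀ a ∈ A, 1 ≤ a ∧ (a : ℝ) ≤ (n : ℝ) ^ K) ∧
      ((A * A).card : ℝ) ≤ (n : ℝ) ^ 2 *
        Real.exp (-((2 * (K - 1) * Real.log 2 - ε) * (Real.log n / Real.log (Real.log n)))) := by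
  classical
  have hl2 := Real.log_two_gt_d9
  have hl2' := Real.log_two_lt_d9
  set η : ℝ := min ((K - 1) / 2) (ε / 4) with hη
  have hη0 : 0 < η := lt_min (by linarith) (by positivity)
  have hη1 : η ≤ (K - 1) / 2 := min_le_left _ _
  have hη2 : η ≤ ε / 4 := min_le_right _ _
  set c : ℝ := K - 1 - η with hc
  have hc0 : 0 < c := by rw [hc]; linarith
  have hcK : c < K - 1 := by rw [hc]; linarith
  have hlogn : Tendsto (fun n : ℕ => Real.log (n : ℝ)) atTop atTop :=
    Real.tendsto_log_atTop.comp tendsto_natCast_atTop_atTop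
  obtain ⟨n₀, hn₀⟩ := eventually_atTop.1 ((hlogn.eventually (asym2 hc0 hcK hε)).and
    (eventually_ge_atTop 2))
  refine ⟨n₀, fun n hn => ?_⟩
  obtain ⟨⟨h1, h2, h3, h4, h5, h6⟩, hn2⟩ := hn₀ n hn
  set L : ℝ := Real.log n with hL
  set l : ℝ := Real.log L with hl
  have hn0 : (0 : ℝ) < n := by exact_mod_cast (by omega : 0 < n)
  have hl0 : 0 < l := by linarith
  have hL0 : 0 < L := by
    by_contra h
    push Not at h
    have hL0 : 0 ≤ L := Real.log_nonneg (by exact_mod_cast (by omega : 1 ≤ n))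
    have : L = 0 := le_antisymm h hL0
    rw [hl, this, Real.log_zero] at hl0
    exact lt_irrefl _ hl0
  set m : ℕ := ⌊c * L / l⌋₊ with hm
  have hm1 : 1 ≤ m := by
    rw [hm]
    apply Nat.le_floor
    rw [Nat.cast_one, one_le_div hl0]
    exact h6
  have hm0 : (0 : ℝ) < m := by exact_mod_cast (by omega : 0 < m)
  have hmle : (m : ℝ) ≤ c * L / l := Nat.floor_le (by positivity)
  have hmge : c * L / l - 1 ≤ m := by
    have := Nat.lt_floor_add_one (c * L / l)
    rw [← hm] at this
    linarith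
  -- the exponent `u`
  have hul : l / c ≤ L / m := by
    rw [div_le_div_iff₀ hc0 hm0]
    rw [le_div_iff₀ hl0] at hmle
    linarith
  have hu4 : 4 ≤ L / m := by
    refine le_trans ?_ hul
    rw [le_div_iff₀ hc0]
    linarith
  set u : ℝ := L / m with hu
  have hmu : m * u = L := by rw [hu]; field_simp
  set X : ℝ := Real.exp (K * u) with hX
  have hX20 : 22 ≤ X := by
    have h7 : (4 : ℝ) ≤ K * u := by nlinarith
    have h8 : Real.exp 4 ≤ X := Real.exp_le_exp.2 h7
    have h9 : (2.7 : ℝ) ≤ Real.exp 1 := by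
      have := Real.exp_one_gt_d9
      linarith
    have h10 : Real.exp 4 = Real.exp 1 ^ 4 := by rw [← Real.exp_nat_mul]; norm_num
    have h11 : (2.7 : ℝ) ^ 4 ≤ Real.exp 1 ^ 4 := pow_le_pow_left₀ (by norm_num) h9 4
    rw [h10] at h8
    norm_num at h11
    linarith
  have hpi := pi_lower hX20
  have hlX : Real.log X = K * u := by rw [hX, Real.log_exp]
  rw [hlX] at hpi
  -- the number of primes
  have hcond : m * (Real.exp u + 1) ≤ (Nat.primeCounting ⌊X⌋₊ : ℝ) := by
    refine le_trans ?_ hpi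
    have hKu : 0 < 2 * (K * u) := by nlinarith
    rw [le_div_iff₀ hKu]
    have h7 : 1 ≤ Real.exp u := Real.one_le_exp (by linarith)
    have h8 : 4 * K * L ≤ Real.exp ((K - 1) * u) := by
      have h9 : L ^ ((K - 1) / c) ≤ Real.exp ((K - 1) * u) := by
        rw [Real.rpow_def_of_pos hL0]
        apply Real.exp_le_exp.2
        calc Real.log L * ((K - 1) / c) = (K - 1) * (l / c) := by rw [← hl]; ring
          _ ≤ _ := mul_le_mul_of_nonneg_left hul (by linarith)
      refine le_trans ?_ h9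
      have h10 : L ^ ((K - 1) / c) = L ^ ((K - 1) / c - 1) * L := by
        rw [← Real.rpow_add_one hL0.ne']
        congr 1
        ring
      rw [h10]
      exact mul_le_mul_of_nonneg_right h3 hL0.le
    calc m * (Real.exp u + 1) * (2 * (K * u)) = 2 * K * (m * u) * (Real.exp u + 1) := by ring
      _ = 2 * K * L * (Real.exp u + 1) := by rw [hmu]
      _ ≤ 2 * K * L * (2 * Real.exp u) := by
          apply mul_le_mul_of_nonneg_left (by linarith)
          have : 0 < K := by linarith
          positivity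
      _ = 4 * K * L * Real.exp u := by ring
      _ ≤ Real.exp ((K - 1) * u) * Real.exp u :=
          mul_le_mul_of_nonneg_right h8 (Real.exp_pos _).le
      _ = X := by
          rw [← Real.exp_add, hX]
          congr 1
          ring
  obtain ⟨A, hAc, hAb, hAA⟩ := example_explicit n m ⌊X⌋₊ hn2 hm1 (by linarith) hcond
  refine ⟨A, hAc, fun a ha => ⟨(hAb a ha).1, ?_⟩, ?_⟩
  · have h7 : (a : ℝ) ≤ ((⌊X⌋₊ : ℕ) : ℝ) ^ m := by exact_mod_cast (hAb a ha).2
    have h8 : ((⌊X⌋₊ : ℕ) : ℝ) ≤ X := Nat.floor_le (Real.exp_pos _).le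
    calc (a : ℝ) ≤ X ^ m := h7.trans (pow_le_pow_left₀ (by positivity) h8 m)
      _ = (n : ℝ) ^ K := by
          rw [hX, ← Real.exp_nat_mul, Real.rpow_def_of_pos hn0]
          congr 1
          calc (m : ℝ) * (K * u) = K * (m * u) := by ring
            _ = Real.log n * K := by rw [hmu, hL]; ring
  · refine hAA.trans ?_
    rw [← hL, ← hu, mul_assoc]
    apply mul_le_mul_of_nonneg_left _ (by positivity)
    rw [← Real.log_le_log_iff (by positivity) (Real.exp_pos _), Real.log_exp,
      Real.log_mul (by positivity) (Real.exp_ne_zero _), Real.log_exp,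
      Real.log_div (by positivity) (by positivity), Real.log_pow]
    have h4l : Real.log 4 = 2 * Real.log 2 := by
      rw [show (4 : ℝ) = 2 ^ 2 by norm_num, Real.log_pow]
      norm_num
    have hLl : 0 < L / l := by positivity
    -- the three error terms
    have e1 : Real.log (8 * m) + Real.log 4 ≤ ε / 4 * (L / l) := by
      rw [← Real.log_mul (by positivity) (by norm_num)]
      have h7 : (8 : ℝ) * m * 4 ≤ 32 * c * L := by
        have h8 : (m : ℝ) ≤ c * L := by
          refine hmle.trans ?_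
          rw [div_le_iff₀ hl0]
          have : 0 < c * L := by positivity
          nlinarith
        linarith
      have h8 : Real.log (8 * m * 4) ≤ Real.log (32 * c * L) :=
        Real.log_le_log (by positivity) h7
      refine h8.trans ?_
      rw [mul_div_assoc', le_div_iff₀ hl0]
      linarith
    have e2 : 12 * m * Real.exp (1 - u) ≤ ε / 4 * (L / l) := by
      have h7 : Real.exp (1 - u) ≤ Real.exp (1 - l / c) := Real.exp_le_exp.2 (by linarith)
      calc 12 * m * Real.exp (1 - u) ≤ 12 * (c * L / l) * Real.exp (1 - l / c) := by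
            apply mul_le_mul _ h7 (Real.exp_pos _).le (by positivity)
            linarith
        _ = (12 * c * Real.exp (1 - l / c)) * (L / l) := by ring
        _ ≤ _ := mul_le_mul_of_nonneg_right h5 hLl.le
    have e3 : (m : ℝ) * Real.log 4 ≥ 2 * c * Real.log 2 * (L / l) - Real.log 4 := by
      have h7 : (c * L / l - 1) * Real.log 4 ≤ m * Real.log 4 :=
        mul_le_mul_of_nonneg_right hmge (by rw [h4l]; linarith)
      have h8 : (c * L / l - 1) * Real.log 4 = 2 * c * Real.log 2 * (L / l) - Real.log 4 := by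
        rw [h4l]
        ring
      linarith
    have e4 : 2 * c * Real.log 2 * (L / l) ≥ (2 * (K - 1) * Real.log 2 - ε / 2) * (L / l) := by
      apply mul_le_mul_of_nonneg_right _ hLl.le
      rw [hc]
      nlinarith
    nlinarith

end Pool.Agent.Helper77.SP
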